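import Pool.Agent.Helper268.Assoc5

set_option autoImplicit false

/-!
Homeomorphisms of the plane that are finite compositions of maps with continuous associative
coordinate functions tend to `(+∞, +∞)` when both variables tend to `+∞`. In particular the central
symmetry `(x, y) ↦ (-x, -y)` is not such a composition.
-/

namespace Pool.Agent.Results.MP_4e7b39_an.PlaneHomeomorphisms

/-- `f` is associative: `f (x, f (y, z)) = f (f (x, y), z)` -/
def Associative (f : ℝ → ℝ → ℝ) : Prop := ∀ x y z : ℝ, f x (f y z) = f (f x y) z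

/-- a continuous map of the plane whose two coordinate functions are associative -/
def AssociativeCoordinates (T : ℝ × ℝ → ℝ × ℝ) : Prop :=
  Continuous T ∧ Associative (fun x y => (T (x, y)).1) ∧ Associative (fun x y => (T (x, y)).2)

/-- the composition `T₁ ∘ T₂ ∘ ⋯ ∘ T_k` of a list of maps of the plane (`id` for the empty list) -/
def compose : List (ℝ × ℝ → ℝ × ℝ) → (ℝ × ℝ → ℝ × ℝ)
  | [] => id
  | T :: L => T ∘ compose L

/-- `T` is a finite composition of continuous maps with associative coordinate functions -/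
def FiniteComposition (T : ℝ × ℝ → ℝ × ℝ) : Prop :=
  ∃ L : List (ℝ × ℝ → ℝ × ℝ), (∀ S ∈ L, AssociativeCoordinates S) ∧ T = compose L

/-- (1) every homeomorphism `T` of the plane that is a finite composition of continuous maps with
associative coordinates satisfies: for every `N` there is `K` such that both coordinates of
`T (x, y)` are at least `N` when `x, y ≥ K`; (2) the continuous map `(x, y) ↦ (-x, -y)` is not a
finite composition of continuous maps with associative coordinates. -/
theorem result :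
    (∀ T : (ℝ × ℝ) ≃ₜ (ℝ × ℝ), FiniteComposition T →
      ∀ N : ℝ, ∃ K : ℝ, ∀ x y : ℝ, K ≤ x → K ≤ y → N ≤ (T (x, y)).1 ∧ N ≤ (T (x, y)).2) ∧
    Continuous (fun p : ℝ × ℝ => ((-p.1, -p.2) : ℝ × ℝ)) ∧
    ¬ FiniteComposition (fun p : ℝ × ℝ => ((-p.1, -p.2) : ℝ × ℝ)) := by
  have hfold : ∀ L : List (ℝ × ℝ → ℝ × ℝ), compose L = L.foldr (fun S R => S ∘ R) id := by
    intro L
    induction L with
    | nil => rfl
    | cons S L ih => rw [compose, ih]; rfl
  have main : ∀ T : (ℝ × ℝ) ≃ₜ (ℝ × ℝ), FiniteComposition T →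
      ∀ N : ℝ, ∃ K : ℝ, ∀ x y : ℝ, K ≤ x → K ≤ y → N ≤ (T (x, y)).1 ∧ N ≤ (T (x, y)).2 := by
    rintro T ⟨L, hL, hT⟩
    rw [hfold] at hT
    have hH := Pool.Agent.Helper268.Assoc.homeo_list L (fun S hS => (hL S hS).1)
      T (fun z => by rw [← hT])
    have hup : Pool.Agent.Helper268.Assoc.Up (T : ℝ × ℝ → ℝ × ℝ) := by
      rw [hT]
      refine Pool.Agent.Helper268.Assoc.up_list L (fun S hS => ?_)
      obtain ⟨S', hS'⟩ := hH S hS
      obtain ⟨-, h1, h2⟩ := hL S hS
      have hSS : S = S' := funext fun z => (hS' z).symm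
      subst hSS
      exact Pool.Agent.Helper268.Assoc.up_of_homeo S' (fun a b c => (h1 a b c).symm)
        (fun a b c => (h2 a b c).symm)
    exact hup
  refine ⟨main, by fun_prop, fun h => ?_⟩
  obtain ⟨K, hK⟩ := main (Homeomorph.neg (ℝ × ℝ)) (by
    have : ((Homeomorph.neg (ℝ × ℝ) : (ℝ × ℝ) ≃ₜ (ℝ × ℝ)) : ℝ × ℝ → ℝ × ℝ) =
      (fun p : ℝ × ℝ => ((-p.1, -p.2) : ℝ × ℝ)) := by
        funext p; rfl
    rw [this]; exact h) 1
  obtain ⟨h1, -⟩ := hK (max K 0) (max K 0) (le_max_left _ _) (le_max_left _ _)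
  have h2 : (1 : ℝ) ≤ -(max K 0) := h1
  have h3 : (0 : ℝ) ≤ max K 0 := le_max_right _ _
  linarith

end Pool.Agent.Results.MP_4e7b39_an.PlaneHomeomorphisms
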